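import Pool.Agent.Q120.FA.Stm

/-!
# Project FA, job MI: minor arcs, blocks of length `q`
-/

set_option autoImplicit false

namespace Pool.Agent.Q65.FA

open Pool.Agent.Q120.FA

theorem ps_abs (x : ℝ) : |ps x| ≤ 1 / 2 := by
  unfold ps
  have h1 := Int.fract_nonneg x
  have h2 := Int.fract_lt_one x
  rw [abs_le]
  constructor <;> linarith

theorem ps_eq (x : ℝ) : ps x = x - ⌊x⌋ - 1 / 2 := by
  unfold ps Int.fract
  ring

theorem ps_add_int (x : ℝ) (n : ℤ) : ps (x + n) = ps x := by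
  unfold ps
  rw [Int.fract_add_intCast]

/-- the residues `(r + 1) a + k` modulo `q` -/
theorem perm (q : ℕ) (hq : 1 ≤ q) (a : ℤ) (ha : IsCoprime a (q : ℤ)) (k : ℤ) (H : ℕ → ℝ) :
    ∑ r ∈ Finset.range q, H ((((r : ℤ) + 1) * a + k) % q).toNat = ∑ c ∈ Finset.range q, H c := by
  have hq0 : (0 : ℤ) < q := by exact_mod_cast hq
  have hlt : ∀ r : ℕ, ((((r : ℤ) + 1) * a + k) % q).toNat < q := by
    intro r
    have h1 := Int.emod_lt_of_pos (((r : ℤ) + 1) * a + k) hq0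
    have h2 := Int.emod_nonneg (((r : ℤ) + 1) * a + k) hq0.ne'
    omega
  have hinj : Set.InjOn (fun r : ℕ => ((((r : ℤ) + 1) * a + k) % q).toNat) (Finset.range q) := by
    intro r hr r' hr' h
    have h1 := Int.emod_nonneg (((r : ℤ) + 1) * a + k) hq0.ne'
    have h2 := Int.emod_nonneg (((r' : ℤ) + 1) * a + k) hq0.ne'
    have h3 : (((r : ℤ) + 1) * a + k) % q = (((r' : ℤ) + 1) * a + k) % q := by
      have h' : ((((r : ℤ) + 1) * a + k) % q).toNat = ((((r' : ℤ) + 1) * a + k) % q).toNat := h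
      omega
    have h4 : (q : ℤ) ∣ ((r : ℤ) - r') * a := by
      have h6 := Int.ModEq.dvd (show (((r' : ℤ) + 1) * a + k) ≡ (((r : ℤ) + 1) * a + k) [ZMOD q] from h3.symm)
      have h7 : ((r : ℤ) + 1) * a + k - (((r' : ℤ) + 1) * a + k) = ((r : ℤ) - r') * a := by ring
      rwa [h7] at h6
    have h5 : (q : ℤ) ∣ (r : ℤ) - r' := ha.symm.dvd_of_dvd_mul_right h4
    have hr1 := Finset.mem_range.1 (Finset.mem_coe.1 hr)
    have hr2 := Finset.mem_range.1 (Finset.mem_coe.1 hr')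
    have h6 : (r : ℤ) - r' = 0 := by
      apply Int.eq_zero_of_abs_lt_dvd h5
      rw [abs_lt]
      constructor <;> omega
    omega
  have himg : (Finset.range q).image (fun r : ℕ => ((((r : ℤ) + 1) * a + k) % q).toNat) = Finset.range q := by
    apply Finset.eq_of_subset_of_card_le
    · intro c hc
      obtain ⟨r, -, rfl⟩ := Finset.mem_image.1 hc
      exact Finset.mem_range.2 (hlt r)
    · rw [Finset.card_image_of_injOn hinj]
  conv_rhs => rw [← himg]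
  rw [Finset.sum_image hinj]

/-- sums of a periodic function over the points `(r + 1) a / q + y` -/
theorem perm' (q : ℕ) (hq : 1 ≤ q) (a : ℤ) (ha : IsCoprime a (q : ℤ)) (y : ℝ) (Φ : ℝ → ℝ)
    (hΦ : ∀ (x : ℝ) (n : ℤ), Φ (x + n) = Φ x) :
    ∑ r ∈ Finset.range q, Φ (((r : ℝ) + 1) * ((a : ℝ) / q) + y) =
      ∑ c ∈ Finset.range q, Φ (((c : ℝ) + Int.fract (q * y)) / q) := by
  have hq0 : (0 : ℤ) < q := by exact_mod_cast hq
  have hqr : (0 : ℝ) < q := by exact_mod_cast hq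
  rw [← perm q hq a ha ⌊(q : ℝ) * y⌋ fun c => Φ (((c : ℝ) + Int.fract (q * y)) / q)]
  refine Finset.sum_congr rfl fun r _ => ?_
  have h1 := Int.emod_nonneg (((r : ℤ) + 1) * a + ⌊(q : ℝ) * y⌋) hq0.ne'
  have h2 := Int.emod_add_mul_ediv (((r : ℤ) + 1) * a + ⌊(q : ℝ) * y⌋) q
  refine Eq.trans ?_ (hΦ _ ((((r : ℤ) + 1) * a + ⌊(q : ℝ) * y⌋) / q))
  congr 1
  have h3 : ((((((r : ℤ) + 1) * a + ⌊(q : ℝ) * y⌋) % q).toNat : ℕ) : ℝ) =
      (((((r : ℤ) + 1) * a + ⌊(q : ℝ) * y⌋) % q : ℤ) : ℝ) := by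
    have h4 : ((((((r : ℤ) + 1) * a + ⌊(q : ℝ) * y⌋) % q).toNat : ℕ) : ℤ) =
        (((r : ℤ) + 1) * a + ⌊(q : ℝ) * y⌋) % q := Int.toNat_of_nonneg h1
    exact_mod_cast congrArg (Int.cast : ℤ → ℝ) h4
  rw [h3]
  have h5 : (((((r : ℤ) + 1) * a + ⌊(q : ℝ) * y⌋) % q : ℤ) : ℝ) +
      (q : ℝ) * ((((((r : ℤ) + 1) * a + ⌊(q : ℝ) * y⌋) / q : ℤ)) : ℝ) =
      ((r : ℝ) + 1) * a + ⌊(q : ℝ) * y⌋ := by
    exact_mod_cast congrArg (Int.cast : ℤ → ℝ) h2
  have h6 : Int.fract ((q : ℝ) * y) = q * y - ⌊(q : ℝ) * y⌋ := rfl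
  rw [h6]
  field_simp
  linarith

/-- Hermite's identity -/
theorem herm (q : ℕ) (hq : 1 ≤ q) (a : ℤ) (ha : IsCoprime a (q : ℤ)) (y : ℝ) :
    ∑ r ∈ Finset.range q, ps (((r : ℝ) + 1) * ((a : ℝ) / q) + y) = ps (q * y) := by
  have hqr : (0 : ℝ) < q := by exact_mod_cast hq
  rw [perm' q hq a ha y ps ps_add_int]
  have h0 := Int.fract_nonneg ((q : ℝ) * y)
  have h1 := Int.fract_lt_one ((q : ℝ) * y)
  have h2 : ∀ c ∈ Finset.range q, ps (((c : ℝ) + Int.fract (q * y)) / q) =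
      (c : ℝ) * (1 / q) + (Int.fract (q * y) / q - 1 / 2) := by
    intro c hc
    have hc1 : (c : ℝ) + 1 ≤ q := by exact_mod_cast Finset.mem_range.1 hc
    unfold ps
    rw [Int.fract_eq_self.2]
    · ring
    · constructor
      · positivity
      · rw [div_lt_one hqr]
        linarith
  rw [Finset.sum_congr rfl h2, Finset.sum_add_distrib, ← Finset.sum_mul, Finset.sum_const, Finset.card_range,
    nsmul_eq_mul]
  have h3 : ∑ c ∈ Finset.range q, (c : ℝ) = q * (q - 1) / 2 := by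
    have h4 := Finset.sum_range_id_mul_two q
    have h5 : (∑ c ∈ Finset.range q, (c : ℝ)) * 2 = q * (q - 1) := by
      have h6 : (((∑ c ∈ Finset.range q, c) * 2 : ℕ) : ℝ) = ((q * (q - 1) : ℕ) : ℝ) := by rw [h4]
      push_cast [Nat.cast_sub hq] at h6
      exact h6
    linarith
  rw [h3]
  unfold ps
  field_simp
  ring

/-- the number of the points near the integers -/
theorem near (q : ℕ) (hq : 1 ≤ q) (a : ℤ) (ha : IsCoprime a (q : ℤ)) (y : ℝ) :
    ∑ r ∈ Finset.range q, ((⌊((r : ℝ) + 1) * ((a : ℝ) / q) + y + 1 / q⌋ : ℝ) -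
      ⌊((r : ℝ) + 1) * ((a : ℝ) / q) + y - 1 / q⌋) = 2 := by
  have hqr : (0 : ℝ) < q := by exact_mod_cast hq
  rw [perm' q hq a ha y (fun x => ((⌊x + 1 / q⌋ : ℤ) : ℝ) - ((⌊x - 1 / q⌋ : ℤ) : ℝ))]
  · set θ := Int.fract ((q : ℝ) * y) with hθ
    have h0 : 0 ≤ θ := Int.fract_nonneg ((q : ℝ) * y)
    have h1 : θ < 1 := Int.fract_lt_one ((q : ℝ) * y)
    have h2 : ∀ n : ℕ, ∑ c ∈ Finset.range n, (((⌊((c : ℝ) + θ) / q + 1 / q⌋ : ℤ) : ℝ) - ((⌊((c : ℝ) + θ) / q - 1 / q⌋ : ℤ) : ℝ)) =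
        ((⌊((n : ℝ) + θ) / q⌋ : ℤ) : ℝ) + ((⌊((n : ℝ) - 1 + θ) / q⌋ : ℤ) : ℝ) -
          (((⌊θ / q⌋ : ℤ) : ℝ) + ((⌊(-1 + θ) / q⌋ : ℤ) : ℝ)) := by
      intro n
      induction n with
      | zero => simp
      | succ n ih =>
        rw [Finset.sum_range_succ, ih]
        have e1 : ((n : ℝ) + θ) / q + 1 / q = (((n + 1 : ℕ) : ℝ) + θ) / q := by push_cast; ring
        have e2 : ((n : ℝ) + θ) / q - 1 / q = ((n : ℝ) - 1 + θ) / q := by ring
        have e3 : ((n + 1 : ℕ) : ℝ) - 1 + θ = (n : ℝ) + θ := by push_cast; ring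
        rw [e1, e2, e3]
        ring
    rw [h2]
    have e1 : ⌊((q : ℝ) + θ) / q⌋ = 1 := by
      rw [Int.floor_eq_iff]
      push_cast
      constructor
      · rw [le_div_iff₀ hqr]; linarith
      · rw [div_lt_iff₀ hqr]
        have : (1 : ℝ) ≤ q := by exact_mod_cast hq
        linarith
    have e2 : ⌊((q : ℝ) - 1 + θ) / q⌋ = 0 := by
      rw [Int.floor_eq_iff]
      push_cast
      have : (1 : ℝ) ≤ q := by exact_mod_cast hq
      constructor
      · apply div_nonneg <;> linarith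
      · rw [div_lt_iff₀ hqr]
        linarith
    have e3 : ⌊θ / q⌋ = 0 := by
      rw [Int.floor_eq_iff]
      push_cast
      have : (1 : ℝ) ≤ q := by exact_mod_cast hq
      constructor
      · positivity
      · rw [div_lt_iff₀ hqr]
        linarith
    have e4 : ⌊(-1 + θ) / q⌋ = -1 := by
      rw [Int.floor_eq_iff]
      push_cast
      have : (1 : ℝ) ≤ q := by exact_mod_cast hq
      constructor
      · rw [le_div_iff₀ hqr]; linarith
      · rw [div_lt_iff₀ hqr]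
        linarith
    rw [e1, e2, e3, e4]
    norm_num
  · intro x n
    have e1 : x + n + 1 / (q : ℝ) = x + 1 / q + n := by ring
    have e2 : x + n - 1 / (q : ℝ) = x - 1 / q + n := by ring
    rw [e1, e2, Int.floor_add_intCast, Int.floor_add_intCast]
    push_cast
    ring

/-- a block of length `q` -/
theorem block (q : ℕ) (hq : 1 ≤ q) (a : ℤ) (ha : IsCoprime a (q : ℤ)) (y β : ℝ) (hβ : |β| * q ^ 2 ≤ 1) :
    |∑ r ∈ Finset.range q, ps (((r : ℝ) + 1) * ((a : ℝ) / q) + y + ((r : ℝ) + 1) * β)| ≤ 4 := by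
  have hqr : (0 : ℝ) < q := by exact_mod_cast hq
  have h1 : ∀ r ∈ Finset.range q, |ps (((r : ℝ) + 1) * ((a : ℝ) / q) + y + ((r : ℝ) + 1) * β) -
      ps (((r : ℝ) + 1) * ((a : ℝ) / q) + y)| ≤ 1 / q + ((⌊((r : ℝ) + 1) * ((a : ℝ) / q) + y + 1 / q⌋ : ℝ) -
      ⌊((r : ℝ) + 1) * ((a : ℝ) / q) + y - 1 / q⌋) := by
    intro r hr
    have hr1 : (r : ℝ) + 1 ≤ q := by exact_mod_cast Finset.mem_range.1 hr
    have hr0 : (0 : ℝ) ≤ (r : ℝ) + 1 := by positivity
    obtain ⟨z, hz⟩ : ∃ z, z = ((r : ℝ) + 1) * ((a : ℝ) / q) + y := ⟨_, rfl⟩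
    obtain ⟨h, hh⟩ : ∃ h, h = ((r : ℝ) + 1) * β := ⟨_, rfl⟩
    rw [← hz, ← hh]
    have hh1 : |h| ≤ 1 / q := by
      rw [hh, abs_mul, abs_of_nonneg hr0, le_div_iff₀ hqr]
      have h2 : ((r : ℝ) + 1) * |β| ≤ q * |β| := mul_le_mul_of_nonneg_right hr1 (abs_nonneg _)
      calc ((r : ℝ) + 1) * |β| * q ≤ q * |β| * q := mul_le_mul_of_nonneg_right h2 hqr.le
        _ = |β| * q ^ 2 := by ring
        _ ≤ 1 := hβ
    obtain ⟨hh2, hh3⟩ := abs_le.1 hh1
    rw [ps_eq, ps_eq]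
    have f1 : (⌊z + h⌋ : ℝ) ≤ ⌊z + 1 / q⌋ := by exact_mod_cast Int.floor_le_floor (by linarith)
    have f2 : (⌊z - 1 / q⌋ : ℝ) ≤ ⌊z + h⌋ := by exact_mod_cast Int.floor_le_floor (by linarith)
    have hq1 : (0 : ℝ) ≤ 1 / q := by positivity
    have f3 : (⌊z⌋ : ℝ) ≤ ⌊z + 1 / q⌋ := by exact_mod_cast Int.floor_le_floor (by linarith)
    have f4 : (⌊z - 1 / q⌋ : ℝ) ≤ ⌊z⌋ := by exact_mod_cast Int.floor_le_floor (by linarith)
    rw [abs_le]
    constructor <;> linarith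
  have h2 : |∑ r ∈ Finset.range q, ps (((r : ℝ) + 1) * ((a : ℝ) / q) + y + ((r : ℝ) + 1) * β) -
      ps (q * y)| ≤ 3 := by
    rw [← herm q hq a ha y, ← Finset.sum_sub_distrib]
    refine (Finset.abs_sum_le_sum_abs _ _).trans ((Finset.sum_le_sum h1).trans ?_)
    rw [Finset.sum_add_distrib, near q hq a ha y, Finset.sum_const, Finset.card_range, nsmul_eq_mul,
      mul_one_div_cancel hqr.ne']
    norm_num
  have h3 := ps_abs (q * y)
  have h4 : |∑ r ∈ Finset.range q, ps (((r : ℝ) + 1) * ((a : ℝ) / q) + y + ((r : ℝ) + 1) * β)| ≤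
      |∑ r ∈ Finset.range q, ps (((r : ℝ) + 1) * ((a : ℝ) / q) + y + ((r : ℝ) + 1) * β) - ps (q * y)| +
        |ps (q * y)| := by
    have := abs_add_le (∑ r ∈ Finset.range q, ps (((r : ℝ) + 1) * ((a : ℝ) / q) + y + ((r : ℝ) + 1) * β) - ps (q * y))
      (ps (q * y))
    rwa [sub_add_cancel] at this
  linarith

/-- decomposition in blocks -/
theorem sum_blocks (f : ℕ → ℝ) (q L : ℕ) :
    ∑ d ∈ Finset.range (L * q), f d = ∑ j ∈ Finset.range L, ∑ r ∈ Finset.range q, f (j * q + r) := by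
  induction L with
  | zero => simp
  | succ L ih => rw [Nat.succ_mul, Finset.sum_range_add, ih, Finset.sum_range_succ]

theorem S_eq (D : ℕ) (t : ℝ) : S D t = ∑ d ∈ Finset.range D, ps (((d : ℝ) + 1) * t) := by
  unfold S
  have h1 : Finset.Icc 1 D = Finset.Ico 1 (D + 1) := by
    ext d
    simp only [Finset.mem_Icc, Finset.mem_Ico]
    omega
  rw [h1, Finset.sum_Ico_eq_sum_range, Nat.add_sub_cancel]
  refine Finset.sum_congr rfl fun d _ => ?_
  rw [Nat.cast_add, Nat.cast_one, add_comm (1 : ℝ)]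

theorem S_dec (q L R : ℕ) (t : ℝ) : S (L * q + R) t =
    ∑ j ∈ Finset.range L, ∑ r ∈ Finset.range q, ps (((j : ℝ) * q + r + 1) * t) +
      ∑ x ∈ Finset.range R, ps ((((L * q + x : ℕ) : ℝ) + 1) * t) := by
  rw [S_eq, Finset.sum_range_add, sum_blocks (fun d => ps (((d : ℝ) + 1) * t))]
  congr 1
  refine Finset.sum_congr rfl fun j _ => Finset.sum_congr rfl fun r _ => ?_
  push_cast
  ring_nf

/-- MI -/
theorem t_MI : J_MI := by
  refine ⟨4, by norm_num, ?_⟩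
  intro N D q a X t hD hq ha hX hqX ht
  have hqr : (0 : ℝ) < q := by exact_mod_cast hq
  have hX0 : 0 < X := by linarith
  have hN0 : (0 : ℝ) < N := lt_of_lt_of_le (by positivity) hqX
  obtain ⟨β, hβ⟩ : ∃ β, β = t - (a : ℝ) / q := ⟨_, rfl⟩
  rw [← hβ] at ht
  have hβ1 : |β| * q ^ 2 ≤ 1 := by
    have h1 : |β| * (q * N) ≤ X := by
      rwa [le_div_iff₀ (by positivity)] at ht
    have h2 : |β| * q ^ 2 * N ≤ 1 * N := by
      calc |β| * q ^ 2 * N = (|β| * (q * N)) * q := by ring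
        _ ≤ X * q := mul_le_mul_of_nonneg_right h1 hqr.le
        _ = q * X := mul_comm _ _
        _ ≤ 1 * N := by rw [one_mul]; exact hqX
    exact le_of_mul_le_mul_right h2 hN0
  have hDq : D = (D / q) * q + D % q := by rw [mul_comm]; exact (Nat.div_add_mod D q).symm
  rw [hDq, S_dec]
  have h1 : |∑ j ∈ Finset.range (D / q), ∑ r ∈ Finset.range q, ps (((j : ℝ) * q + r + 1) * t)| ≤ 4 * (N / q) := by
    have h2 : ∀ j ∈ Finset.range (D / q), |∑ r ∈ Finset.range q, ps (((j : ℝ) * q + r + 1) * t)| ≤ 4 := by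
      intro j _
      have h3 : ∀ r ∈ Finset.range q, ps (((j : ℝ) * q + r + 1) * t) =
          ps (((r : ℝ) + 1) * ((a : ℝ) / q) + (j : ℝ) * q * t + ((r : ℝ) + 1) * β) := by
        intro r _
        congr 1
        rw [hβ]
        ring
      rw [Finset.sum_congr rfl h3]
      exact block q hq a ha _ β hβ1
    refine (Finset.abs_sum_le_sum_abs _ _).trans ((Finset.sum_le_sum h2).trans ?_)
    rw [Finset.sum_const, Finset.card_range, nsmul_eq_mul, mul_comm]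
    refine mul_le_mul_of_nonneg_left ?_ (by norm_num)
    calc ((D / q : ℕ) : ℝ) ≤ (D : ℝ) / q := Nat.cast_div_le
      _ ≤ (N : ℝ) / q := by
        have : (D : ℝ) ≤ N := by exact_mod_cast hD
        gcongr
  have h2 : |∑ x ∈ Finset.range (D % q), ps ((((D / q * q + x : ℕ) : ℝ) + 1) * t)| ≤ N / X := by
    have h3 : ∀ x ∈ Finset.range (D % q), |ps ((((D / q * q + x : ℕ) : ℝ) + 1) * t)| ≤ 1 / 2 := fun x _ => ps_abs _
    refine (Finset.abs_sum_le_sum_abs _ _).trans ((Finset.sum_le_sum h3).trans ?_)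
    rw [Finset.sum_const, Finset.card_range, nsmul_eq_mul]
    have h4 : ((D % q : ℕ) : ℝ) ≤ q := by exact_mod_cast (Nat.mod_lt D hq).le
    have h5 : (q : ℝ) ≤ N / X := by rwa [le_div_iff₀ hX0]
    have h6 : (0 : ℝ) ≤ N / X := by positivity
    linarith
  refine (abs_add_le _ _).trans ?_
  have h6 : (0 : ℝ) ≤ N / X := by positivity
  linarith

end Pool.Agent.Q65.FA
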