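import Pool.Agent.Q65.FA.MA
import Pool.Agent.Q277.FA.L2

/-!
# Project FA, job TL: the small `d`
-/

set_option autoImplicit false

namespace Pool.Agent.Q65.FA

open Pool.Agent.Q120.FA
open MeasureTheory Filter Topology

theorem ff_meas (s : Finset ℕ) (c : ℕ → ℝ) : Measurable fun t : ℝ => ∑ d ∈ s, c d * ps ((d : ℝ) * t) :=
  Finset.measurable_sum _ fun d _ => (ps_meas.comp (measurable_id.const_mul (d : ℝ))).const_mul (c d)

theorem ff_abs (s : Finset ℕ) (c : ℕ → ℝ) (B : ℝ) (hc : ∀ d ∈ s, |c d| ≤ B) (t : ℝ) :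
    |∑ d ∈ s, c d * ps ((d : ℝ) * t)| ≤ s.card * (B / 2) := by
  refine (Finset.abs_sum_le_sum_abs _ _).trans ?_
  have h1 : ∀ d ∈ s, |c d * ps ((d : ℝ) * t)| ≤ B / 2 := by
    intro d hd
    rw [abs_mul]
    have h2 := hc d hd
    have h3 := ps_abs ((d : ℝ) * t)
    have h4 := abs_nonneg (c d)
    have h5 := abs_nonneg (ps ((d : ℝ) * t))
    nlinarith
  refine (Finset.sum_le_sum h1).trans (le_of_eq ?_)
  rw [Finset.sum_const, nsmul_eq_mul]

theorem ii {h : ℝ → ℝ} (hm : Measurable h) {C : ℝ} (hb : ∀ t, |h t| ≤ C) :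
    IntervalIntegrable h volume 0 1 := by
  refine IntervalIntegrable.mono_fun (f := fun _ => C) intervalIntegrable_const
    hm.aestronglyMeasurable (Filter.Eventually.of_forall fun w => ?_)
  refine (hb w : ‖h w‖ ≤ C).trans ?_
  exact le_abs_self C

/-- one block -/
theorem blk {A : ℝ} (hA : ∀ (N : ℕ) (c : ℕ → ℝ) (B : ℝ), 0 ≤ B → (∀ d ∈ Finset.Icc 1 N, |c d| ≤ B) →
    ∫ t in (0 : ℝ)..1, (∑ d ∈ Finset.Icc 1 N, c d * ps ((d : ℝ) * t)) ^ 2 ≤ A * B ^ 2 * N)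
    (p : ℝ) (hp : 2 < p) (D : ℕ) (hD : 1 ≤ D) (c : ℕ → ℝ) (B : ℝ) (hB : 0 ≤ B)
    (hc : ∀ d ∈ Finset.Icc 1 (2 * D), |c d| ≤ B) :
    ∫ t in (0 : ℝ)..1, |∑ d ∈ Finset.Icc 1 (2 * D), c d * ps ((d : ℝ) * t)| ^ p ≤
      2 * A * B ^ p * (D : ℝ) ^ (p - 1) := by
  have hD0 : (0 : ℝ) < D := by exact_mod_cast hD
  set f : ℝ → ℝ := fun t => ∑ d ∈ Finset.Icc 1 (2 * D), c d * ps ((d : ℝ) * t) with hf
  have hfm : Measurable f := ff_meas _ _
  have hfb : ∀ t, |f t| ≤ D * B := by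
    intro t
    have h1 := ff_abs (Finset.Icc 1 (2 * D)) c B hc t
    rw [Nat.card_Icc, Nat.add_sub_cancel] at h1
    push_cast at h1
    refine h1.trans (le_of_eq (by ring))
  have h1 : ∀ t, |f t| ^ p ≤ ((D : ℝ) * B) ^ (p - 2) * f t ^ 2 := by
    intro t
    have h2 : |f t| ^ p = |f t| ^ (p - 2) * |f t| ^ (2 : ℝ) := by
      rw [← Real.rpow_add_of_nonneg (abs_nonneg _) (by linarith) (by norm_num)]
      congr 1
      ring
    have h3 : |f t| ^ (2 : ℝ) = f t ^ 2 := by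
      rw [show (2 : ℝ) = ((2 : ℕ) : ℝ) by norm_num, Real.rpow_natCast, sq_abs]
    rw [h2, h3]
    exact mul_le_mul_of_nonneg_right (Real.rpow_le_rpow (abs_nonneg _) (hfb t) (by linarith)) (sq_nonneg _)
  have h2 := hA (2 * D) c B hB hc
  have hi2 : IntervalIntegrable (fun t => f t ^ 2) volume 0 1 := by
    refine ii (hfm.pow_const 2) (C := (D * B) ^ 2) fun t => ?_
    rw [abs_pow]
    exact pow_le_pow_left₀ (abs_nonneg _) (hfb t) 2
  have hip : IntervalIntegrable (fun t => |f t| ^ p) volume 0 1 := by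
    refine ii (hfm.abs.pow_const p) (C := (D * B) ^ p) fun t => ?_
    rw [abs_of_nonneg (Real.rpow_nonneg (abs_nonneg _) _)]
    exact Real.rpow_le_rpow (abs_nonneg _) (hfb t) (by linarith)
  have h3 : ∫ t in (0 : ℝ)..1, |f t| ^ p ≤ ((D : ℝ) * B) ^ (p - 2) * ∫ t in (0 : ℝ)..1, f t ^ 2 := by
    rw [← intervalIntegral.integral_const_mul]
    exact intervalIntegral.integral_mono_on zero_le_one hip (hi2.const_mul _) fun t _ => h1 t
  refine h3.trans ?_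
  have h4 : 0 ≤ ((D : ℝ) * B) ^ (p - 2) := Real.rpow_nonneg (by positivity) _
  refine (mul_le_mul_of_nonneg_left h2 h4).trans (le_of_eq ?_)
  have e1 : B ^ p = B ^ (p - 2) * B ^ 2 := by
    rw [← Real.rpow_natCast B 2, ← Real.rpow_add_of_nonneg hB (by linarith) (by norm_num)]
    congr 1
    push_cast
    ring
  have e2 : (D : ℝ) ^ (p - 1) = (D : ℝ) ^ (p - 2) * D := by
    conv_rhs => rw [← Real.rpow_one (D : ℝ), ← Real.rpow_mul hD0.le, one_mul]
    rw [← Real.rpow_add hD0]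
    congr 1
    ring
  rw [Real.mul_rpow hD0.le hB, e1, e2]
  push_cast
  ring

/-- weighted sums -/
theorem conv {ι : Type} (s : Finset ι) (w : ι → ℝ) (hw : ∀ i ∈ s, 0 < w i) (hw1 : ∑ i ∈ s, w i = 1) (p : ℝ)
    (hp : 1 ≤ p) (f : ι → ℝ) : |∑ i ∈ s, f i| ^ p ≤ ∑ i ∈ s, w i * (|f i| ^ p / w i ^ p) := by
  have h1 : |∑ i ∈ s, f i| ≤ ∑ i ∈ s, w i * (|f i| / w i) := by
    refine (Finset.abs_sum_le_sum_abs _ _).trans (le_of_eq ?_)
    refine Finset.sum_congr rfl fun i hi => ?_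
    have := (hw i hi).ne'
    field_simp
  refine (Real.rpow_le_rpow (abs_nonneg _) h1 (by linarith)).trans ?_
  refine (Real.rpow_arith_mean_le_arith_mean_rpow s w (fun i => |f i| / w i) (fun i hi => (hw i hi).le) hw1
    (fun i hi => div_nonneg (abs_nonneg _) (hw i hi).le) hp).trans (le_of_eq ?_)
  refine Finset.sum_congr rfl fun i hi => ?_
  rw [Real.div_rpow (abs_nonneg _) (hw i hi).le]

/-- TL from L2 -/
theorem tl_of (hL2 : J_L2) : J_TL := by
  obtain ⟨A, hA0, hA⟩ := hL2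
  intro p θ c0 hp hθ hθp hc0
  have hp0 : 0 < p := by linarith
  obtain ⟨κ, hκ⟩ : ∃ κ : ℝ, κ = 1 - 1 / p - θ := ⟨_, rfl⟩
  have hκ0 : 0 < κ := by rw [hκ]; linarith
  obtain ⟨ρ, hρ⟩ : ∃ ρ : ℝ, ρ = (2 : ℝ) ^ κ := ⟨_, rfl⟩
  have hρ1 : 1 < ρ := by rw [hρ]; exact Real.one_lt_rpow (by norm_num) hκ0
  have hρ0 : 0 < ρ := by linarith
  have hexp : θ * p + κ * p = p - 1 := by
    rw [hκ]
    field_simp
    ring
  refine ⟨2 * A * c0 ^ p * (ρ / (ρ - 1)) ^ p, κ * p, ?_, by positivity, ?_⟩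
  · have h1 : 0 < ρ / (ρ - 1) := div_pos hρ0 (by linarith)
    positivity
  intro M hM N K hN hK
  have hN0 : (0 : ℝ) < N := by exact_mod_cast hN
  have hK0 : (0 : ℝ) < K := by exact_mod_cast hK
  have hC0 : 0 < 2 * A * c0 ^ p * (ρ / (ρ - 1)) ^ p := by
    have h1 : 0 < ρ / (ρ - 1) := div_pos hρ0 (by linarith)
    positivity
  rcases Nat.eq_zero_or_pos (N / K) with hD | hD
  · rw [hD]
    have h1 : ∀ t : ℝ, |∑ d ∈ Finset.Icc 1 0, M (N / d) * ps ((d : ℝ) * t)| ^ p = 0 := by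
      intro t
      rw [Finset.Icc_eq_empty (by norm_num), Finset.sum_empty, abs_zero, Real.zero_rpow hp0.ne']
    simp only [h1]
    rw [intervalIntegral.integral_zero]
    positivity
  obtain ⟨D, hDD⟩ : ∃ D, D = N / K := ⟨_, rfl⟩
  rw [← hDD] at hD ⊢
  have hDr : (0 : ℝ) < D := by exact_mod_cast hD
  have hDN : D ≤ N := by rw [hDD]; exact Nat.div_le_self N K
  obtain ⟨I, hI⟩ : ∃ I, I = Nat.log 2 D + 1 := ⟨_, rfl⟩
  -- the blocks
  let c : ℕ → ℕ → ℝ := fun i d => if Nat.log 2 d = i ∧ d ≤ D then M (N / d) else 0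
  let f : ℕ → ℝ → ℝ := fun i t => ∑ d ∈ Finset.Icc 1 (2 * 2 ^ i), c i d * ps ((d : ℝ) * t)
  have hdec : ∀ t : ℝ, ∑ d ∈ Finset.Icc 1 D, M (N / d) * ps ((d : ℝ) * t) = ∑ i ∈ Finset.range I, f i t := by
    intro t
    have h1 : ∀ d ∈ Finset.Icc 1 D, Nat.log 2 d ∈ Finset.range I := by
      intro d hd
      rw [Finset.mem_Icc] at hd
      rw [Finset.mem_range, hI]
      exact Nat.lt_succ_of_le (Nat.log_mono_right hd.2)
    rw [← Finset.sum_fiberwise_of_maps_to h1]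
    refine Finset.sum_congr rfl fun i _ => ?_
    have h2 : (Finset.Icc 1 D).filter (fun d => Nat.log 2 d = i) ⊆ Finset.Icc 1 (2 * 2 ^ i) := by
      intro d hd
      rw [Finset.mem_filter, Finset.mem_Icc] at hd
      rw [Finset.mem_Icc]
      refine ⟨hd.1.1, ?_⟩
      have h3 := Nat.lt_pow_succ_log_self (b := 2) (by norm_num) d
      rw [hd.2, Nat.succ_eq_add_one, pow_succ'] at h3
      exact h3.le
    show _ = ∑ d ∈ Finset.Icc 1 (2 * 2 ^ i), c i d * ps ((d : ℝ) * t)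
    rw [← Finset.sum_subset h2]
    · refine Finset.sum_congr rfl fun d hd => ?_
      rw [Finset.mem_filter, Finset.mem_Icc] at hd
      show M (N / d) * _ = (if Nat.log 2 d = i ∧ d ≤ D then M (N / d) else 0) * _
      rw [if_pos ⟨hd.2, hd.1.2⟩]
    · intro d hd hd'
      show (if Nat.log 2 d = i ∧ d ≤ D then M (N / d) else 0) * _ = 0
      rw [if_neg, zero_mul]
      intro h4
      apply hd'
      rw [Finset.mem_filter, Finset.mem_Icc]
      exact ⟨⟨(Finset.mem_Icc.1 hd).1, h4.2⟩, h4.1⟩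
  -- the coefficients
  have hB : ∀ i, 0 ≤ c0 * ((N : ℝ) / 2 ^ i) ^ θ := fun i => by positivity
  have hcB : ∀ i, ∀ d ∈ Finset.Icc 1 (2 * 2 ^ i), |c i d| ≤ c0 * ((N : ℝ) / 2 ^ i) ^ θ := by
    intro i d hd
    rw [Finset.mem_Icc] at hd
    show |if Nat.log 2 d = i ∧ d ≤ D then M (N / d) else 0| ≤ _
    split_ifs with h
    · have hd0 : (0 : ℝ) < d := by exact_mod_cast hd.1
      have h1 : 1 ≤ N / d := (Nat.one_le_div_iff hd.1).2 (h.2.trans hDN)
      refine (hM _ h1).trans ?_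
      refine mul_le_mul_of_nonneg_left ?_ hc0.le
      refine Real.rpow_le_rpow (Nat.cast_nonneg _) ?_ hθ
      have h2 : 2 ^ i ≤ d := by
        rw [← h.1]
        exact Nat.pow_log_le_self 2 (by omega)
      have h3 : (2 : ℝ) ^ i ≤ d := by exact_mod_cast h2
      calc ((N / d : ℕ) : ℝ) ≤ (N : ℝ) / d := Nat.cast_div_le
        _ ≤ (N : ℝ) / 2 ^ i := div_le_div_of_nonneg_left hN0.le (by positivity) h3
    · rw [abs_zero]
      exact hB i
  -- the weights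
  obtain ⟨Λ, hΛ⟩ : ∃ Λ : ℝ, Λ = ∑ i ∈ Finset.range I, ρ ^ i := ⟨_, rfl⟩
  have hΛ0 : 0 < Λ := by
    rw [hΛ]
    exact Finset.sum_pos (fun i _ => pow_pos hρ0 i) ⟨0, Finset.mem_range.2 (by omega)⟩
  let w : ℕ → ℝ := fun i => ρ ^ i / Λ
  have hw0 : ∀ i ∈ Finset.range I, 0 < w i := fun i _ => div_pos (pow_pos hρ0 i) hΛ0
  have hw1 : ∑ i ∈ Finset.range I, w i = 1 := by
    show ∑ i ∈ Finset.range I, ρ ^ i / Λ = 1
    rw [← Finset.sum_div, ← hΛ, div_self hΛ0.ne']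
  have hfm : ∀ i, Measurable (f i) := fun i => ff_meas _ _
  have hfb : ∀ i, ∃ C : ℝ, 0 ≤ C ∧ ∀ t, |f i t| ≤ C := by
    intro i
    exact ⟨_, by have := hB i; positivity, fun t => ff_abs (Finset.Icc 1 (2 * 2 ^ i)) (c i) _ (hcB i) t⟩
  have hfi : ∀ i, IntervalIntegrable (fun t => |f i t| ^ p) volume 0 1 := by
    intro i
    obtain ⟨C, hC, hCb⟩ := hfb i
    refine ii ((hfm i).abs.pow_const p) (C := C ^ p) fun t => ?_
    rw [abs_of_nonneg (Real.rpow_nonneg (abs_nonneg _) _)]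
    exact Real.rpow_le_rpow (abs_nonneg _) (hCb t) hp0.le
  have hblk : ∀ i, ∫ t in (0 : ℝ)..1, |f i t| ^ p ≤ 2 * A * c0 ^ p * (N : ℝ) ^ (θ * p) * (ρ ^ i) ^ p := by
    intro i
    have h1 := blk hA p hp (2 ^ i) Nat.one_le_two_pow (c i) _ (hB i) (hcB i)
    refine h1.trans (le_of_eq ?_)
    have e0 : (0 : ℝ) < 2 ^ i := by positivity
    have e1 : (c0 * ((N : ℝ) / 2 ^ i) ^ θ) ^ p = c0 ^ p * ((N : ℝ) ^ (θ * p) * ((2 : ℝ) ^ i) ^ (-(θ * p))) := by
      rw [Real.mul_rpow hc0.le (by positivity), ← Real.rpow_mul (by positivity), Real.div_rpow hN0.le e0.le,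
        Real.rpow_neg e0.le]
      ring
    have e2 : (ρ ^ i) ^ p = ((2 : ℝ) ^ i) ^ (κ * p) := by
      rw [hρ, ← Real.rpow_natCast ((2 : ℝ) ^ κ) i, ← Real.rpow_natCast (2 : ℝ) i, ← Real.rpow_mul (by positivity),
        ← Real.rpow_mul (by positivity), ← Real.rpow_mul (by positivity)]
      congr 1
      ring
    have e3 : ((2 : ℝ) ^ i) ^ (κ * p) = ((2 : ℝ) ^ i) ^ (-(θ * p)) * ((2 : ℝ) ^ i) ^ (p - 1) := by
      rw [← Real.rpow_add e0]
      congr 1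
      linarith
    rw [e1, e2, e3]
    push_cast
    ring
  -- the pointwise inequality
  have hpt : ∀ t : ℝ, |∑ d ∈ Finset.Icc 1 D, M (N / d) * ps ((d : ℝ) * t)| ^ p ≤
      ∑ i ∈ Finset.range I, w i * (|f i t| ^ p / w i ^ p) := by
    intro t
    rw [hdec t]
    exact conv _ w hw0 hw1 p (by linarith) _
  have hLi : IntervalIntegrable (fun t => |∑ d ∈ Finset.Icc 1 D, M (N / d) * ps ((d : ℝ) * t)| ^ p) volume 0 1 := by
    obtain ⟨B', hB'⟩ : ∃ B' : ℝ, ∀ d ∈ Finset.Icc 1 D, |M (N / d)| ≤ B' := by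
      refine ⟨∑ d ∈ Finset.Icc 1 D, |M (N / d)|, fun d hd => ?_⟩
      exact Finset.single_le_sum (f := fun d => |M (N / d)|) (fun d _ => abs_nonneg _) hd
    refine ii ((ff_meas (Finset.Icc 1 D) (fun d => M (N / d))).abs.pow_const p)
      (C := ((Finset.Icc 1 D).card * (B' / 2)) ^ p) fun t => ?_
    rw [abs_of_nonneg (Real.rpow_nonneg (abs_nonneg _) _)]
    exact Real.rpow_le_rpow (abs_nonneg _) (ff_abs _ _ B' hB' t) hp0.le
  have hRi : ∀ i ∈ Finset.range I, IntervalIntegrable (fun t => w i * (|f i t| ^ p / w i ^ p)) volume 0 1 :=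
    fun i _ => ((hfi i).div_const _).const_mul _
  have h1 : ∫ t in (0 : ℝ)..1, |∑ d ∈ Finset.Icc 1 D, M (N / d) * ps ((d : ℝ) * t)| ^ p ≤
      ∑ i ∈ Finset.range I, w i * ((∫ t in (0 : ℝ)..1, |f i t| ^ p) / w i ^ p) := by
    have h2 : ∫ t in (0 : ℝ)..1, ∑ i ∈ Finset.range I, w i * (|f i t| ^ p / w i ^ p) =
        ∑ i ∈ Finset.range I, w i * ((∫ t in (0 : ℝ)..1, |f i t| ^ p) / w i ^ p) := by
      rw [intervalIntegral.integral_finsetSum hRi]
      refine Finset.sum_congr rfl fun i _ => ?_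
      rw [intervalIntegral.integral_const_mul, intervalIntegral.integral_div]
    rw [← h2]
    refine intervalIntegral.integral_mono_on zero_le_one hLi ?_ fun t _ => hpt t
    have h3 := IntervalIntegrable.sum (Finset.range I) hRi
    have h4 : (∑ i ∈ Finset.range I, fun t => w i * (|f i t| ^ p / w i ^ p)) =
        fun t => ∑ i ∈ Finset.range I, w i * (|f i t| ^ p / w i ^ p) := by
      funext t
      rw [Finset.sum_apply]
    rwa [h4] at h3
  have h2 : ∑ i ∈ Finset.range I, w i * ((∫ t in (0 : ℝ)..1, |f i t| ^ p) / w i ^ p) ≤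
      2 * A * c0 ^ p * (N : ℝ) ^ (θ * p) * Λ ^ p := by
    have h3 : ∀ i ∈ Finset.range I, w i * ((∫ t in (0 : ℝ)..1, |f i t| ^ p) / w i ^ p) ≤
        w i * (2 * A * c0 ^ p * (N : ℝ) ^ (θ * p) * Λ ^ p) := by
      intro i hi
      refine mul_le_mul_of_nonneg_left ?_ (hw0 i hi).le
      have h4 : 0 < w i ^ p := Real.rpow_pos_of_pos (hw0 i hi) p
      rw [div_le_iff₀ h4]
      refine (hblk i).trans (le_of_eq ?_)
      have h5 : (ρ ^ i) ^ p = Λ ^ p * w i ^ p := by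
        rw [← Real.mul_rpow hΛ0.le (hw0 i hi).le]
        congr 1
        show ρ ^ i = Λ * (ρ ^ i / Λ)
        field_simp
      rw [h5]
      ring
    refine (Finset.sum_le_sum h3).trans (le_of_eq ?_)
    rw [← Finset.sum_mul, hw1, one_mul]
  -- the geometric series
  have h3 : Λ ≤ ρ / (ρ - 1) * ((N : ℝ) / K) ^ κ := by
    have h4 : Λ = (ρ ^ I - 1) / (ρ - 1) := by
      rw [hΛ, geom_sum_eq hρ1.ne']
    have h5 : ρ ^ I ≤ ρ * ((N : ℝ) / K) ^ κ := by
      rw [hI, pow_succ', hρ]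
      refine mul_le_mul_of_nonneg_left ?_ (by positivity)
      rw [← Real.rpow_natCast ((2 : ℝ) ^ κ), ← Real.rpow_mul (by norm_num), mul_comm κ, Real.rpow_mul (by norm_num),
        Real.rpow_natCast]
      refine Real.rpow_le_rpow (by positivity) ?_ hκ0.le
      have h6 : 2 ^ Nat.log 2 D ≤ D := Nat.pow_log_le_self 2 hD.ne'
      have h7 : (2 : ℝ) ^ Nat.log 2 D ≤ D := by exact_mod_cast h6
      refine h7.trans ?_
      rw [hDD]
      exact Nat.cast_div_le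
    rw [h4, div_mul_eq_mul_div]
    refine div_le_div_of_nonneg_right ?_ (by linarith)
    linarith
  refine h1.trans (h2.trans ?_)
  have h4 : Λ ^ p ≤ (ρ / (ρ - 1)) ^ p * ((N : ℝ) ^ (κ * p) * (K : ℝ) ^ (-(κ * p))) := by
    have h5 : 0 ≤ ρ / (ρ - 1) := (div_pos hρ0 (by linarith)).le
    refine (Real.rpow_le_rpow hΛ0.le h3 hp0.le).trans (le_of_eq ?_)
    rw [Real.mul_rpow h5 (by positivity), ← Real.rpow_mul (by positivity), Real.div_rpow hN0.le hK0.le,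
      Real.rpow_neg hK0.le]
    ring
  have h5 : 0 ≤ 2 * A * c0 ^ p * (N : ℝ) ^ (θ * p) := by positivity
  refine (mul_le_mul_of_nonneg_left h4 h5).trans (le_of_eq ?_)
  have h6 : (N : ℝ) ^ (p - 1) = (N : ℝ) ^ (θ * p) * (N : ℝ) ^ (κ * p) := by
    rw [← Real.rpow_add hN0, hexp]
  rw [h6]
  ring

/-- TL -/
theorem t_TL : J_TL := tl_of Pool.Agent.Q277.FA.t_L2

end Pool.Agent.Q65.FA
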