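import Pool.Agent.Q65.FA.MI

/-!
# Project FA, job MA: major arcs, pointwise
-/

set_option autoImplicit false

namespace Pool.Agent.Q65.FA

open Pool.Agent.Q120.FA
open MeasureTheory Filter Topology

theorem ps_meas : Measurable ps := by
  unfold ps
  exact measurable_fract.sub_const _

theorem ps_cont {y : ℝ} (h : ∀ n : ℤ, y ≠ n) : ContinuousAt ps y := by
  unfold ps
  have h2 : ContinuousAt (Int.fract : ℝ → ℝ) y := by
    have h3 : y ∈ Set.Ioo (⌊y⌋ : ℝ) (⌊y⌋ + 1) := by
      refine ⟨lt_of_le_of_ne (Int.floor_le y) (h ⌊y⌋).symm, Int.lt_floor_add_one y⟩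
    exact (continuousOn_fract ⌊y⌋).continuousAt (Filter.mem_of_superset (isOpen_Ioo.mem_nhds h3)
      Set.Ioo_subset_Ico_self)
  exact h2.sub continuousAt_const

/-- the step function -/
theorem step_int (N : ℕ) (hN : 1 ≤ N) (h : ℕ → ℝ) (L : ℕ) :
    ∫ w in (0 : ℝ)..((L : ℝ) / N), h ⌊w * N⌋₊ = (∑ j ∈ Finset.range L, h j) / N := by
  have hN0 : (0 : ℝ) < N := by exact_mod_cast hN
  have h1 : ∀ j : ℕ, ∫ w in ((j : ℝ) / N)..(((j + 1 : ℕ) : ℝ) / N), h ⌊w * N⌋₊ = h j / N := by
    intro j
    have h2 : ∫ w in ((j : ℝ) / N)..(((j + 1 : ℕ) : ℝ) / N), h ⌊w * N⌋₊ =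
        ∫ _ in ((j : ℝ) / N)..(((j + 1 : ℕ) : ℝ) / N), h j := by
      apply intervalIntegral.integral_congr_Ioo_of_le
      · push_cast
        gcongr
        linarith
      · intro w hw
        have hw1 : (j : ℝ) < w * N := by
          have := hw.1
          rwa [div_lt_iff₀ hN0] at this
        have hw2 : w * N < (j : ℝ) + 1 := by
          have := hw.2
          rw [lt_div_iff₀ hN0] at this
          push_cast at this
          exact this
        have : ⌊w * N⌋₊ = j := by
          rw [Nat.floor_eq_iff (by have : (0 : ℝ) ≤ j := Nat.cast_nonneg j; linarith)]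
          exact ⟨hw1.le, hw2⟩
        show h ⌊w * N⌋₊ = h j
        rw [this]
    rw [h2, intervalIntegral.integral_const, smul_eq_mul]
    push_cast
    ring
  have hint : ∀ k < L, IntervalIntegrable (fun w : ℝ => h ⌊w * N⌋₊) volume ((k : ℝ) / N) (((k + 1 : ℕ) : ℝ) / N) := by
    intro k _
    have hle : (k : ℝ) / N ≤ ((k + 1 : ℕ) : ℝ) / N := by
      push_cast
      gcongr
      linarith
    rw [intervalIntegrable_iff_integrableOn_Ioo_of_le hle]
    refine (integrableOn_const (C := h k) (by simp) (by simp)).congr_fun ?_ measurableSet_Ioo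
    intro w hw
    have hw1 : (k : ℝ) < w * N := by
      have := hw.1
      rwa [div_lt_iff₀ hN0] at this
    have hw2 : w * N < (k : ℝ) + 1 := by
      have := hw.2
      rw [lt_div_iff₀ hN0] at this
      push_cast at this
      exact this
    have : ⌊w * N⌋₊ = k := by
      rw [Nat.floor_eq_iff (by have : (0 : ℝ) ≤ k := Nat.cast_nonneg k; linarith)]
      exact ⟨hw1.le, hw2⟩
    show h k = h ⌊w * N⌋₊
    rw [this]
  have h3 := intervalIntegral.sum_integral_adjacent_intervals (a := fun j : ℕ => (j : ℝ) / N) (n := L)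
    (f := fun w : ℝ => h ⌊w * N⌋₊) (μ := volume) hint
  simp only [Nat.cast_zero, zero_div] at h3
  rw [← h3, Finset.sum_div]
  exact Finset.sum_congr rfl fun j _ => h1 j

/-- Riemann sums of `ps` -/
theorem riem (c s x U : ℝ) (hU : 0 ≤ U) (L : ℕ → ℕ)
    (hL : Tendsto (fun N : ℕ => (L N : ℝ) / N) atTop (𝓝 U)) :
    Tendsto (fun N : ℕ => (∑ j ∈ Finset.range (L N), ps (c + j * (x / N) + s * (x / N))) / N) atTop
      (𝓝 (∫ w in (0 : ℝ)..U, ps (c + w * x))) := by
  by_cases hx : x = 0
  · subst hx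
    have h1 : (fun N : ℕ => (∑ j ∈ Finset.range (L N), ps (c + j * ((0 : ℝ) / N) + s * ((0 : ℝ) / N))) / N) =
        fun N : ℕ => (L N : ℝ) / N * ps c := by
      funext N
      simp only [zero_div, mul_zero, add_zero]
      rw [Finset.sum_const, Finset.card_range, nsmul_eq_mul]
      ring
    have h2 : ∫ w in (0 : ℝ)..U, ps (c + w * 0) = U * ps c := by
      simp only [mul_zero, add_zero]
      rw [intervalIntegral.integral_const, sub_zero, smul_eq_mul]
    rw [h1, h2]
    exact hL.mul_const _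
  -- the step functions
  let gN : ℕ → ℝ → ℝ := fun N w => ps (c + (⌊w * N⌋₊ : ℝ) * (x / N) + s * (x / N))
  have hgm : ∀ N, Measurable (gN N) := by
    intro N
    have h1 : Measurable fun w : ℝ => (⌊w * N⌋₊ : ℝ) := by
      have h2 : Measurable fun w : ℝ => ⌊w * N⌋₊ := (measurable_id.mul_const _).nat_floor
      exact (measurable_from_nat (f := fun n : ℕ => (n : ℝ))).comp h2
    exact ps_meas.comp (((h1.mul_const _).const_add c).add_const _)
  have hgb : ∀ N w, ‖gN N w‖ ≤ 1 / 2 := fun N w => ps_abs _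
  have hgi : ∀ N a b, IntervalIntegrable (gN N) volume a b := by
    intro N a b
    refine IntervalIntegrable.mono_fun (g := gN N) (f := fun _ => (1 / 2 : ℝ)) intervalIntegrable_const
      (hgm N).aestronglyMeasurable (Filter.Eventually.of_forall fun w => ?_)
    refine (hgb N w).trans (le_of_eq ?_)
    norm_num
  have hdct : Tendsto (fun N => ∫ w in (0 : ℝ)..U, gN N w) atTop (𝓝 (∫ w in (0 : ℝ)..U, ps (c + w * x))) := by
    refine intervalIntegral.tendsto_integral_filter_of_dominated_convergence (fun _ => 1 / 2) ?_ ?_ ?_ ?_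
    · exact Filter.Eventually.of_forall fun N => (hgm N).aestronglyMeasurable
    · exact Filter.Eventually.of_forall fun N => Filter.Eventually.of_forall fun w _ => hgb N w
    · exact intervalIntegrable_const
    · have hbad : (Set.range fun n : ℤ => ((n : ℝ) - c) / x).Countable := Set.countable_range _
      have hae : ∀ᵐ w : ℝ ∂volume, w ∉ Set.range fun n : ℤ => ((n : ℝ) - c) / x :=
        (hbad.ae_notMem volume)
      filter_upwards [hae] with w hw hwU
      rw [Set.uIoc_of_le hU] at hwU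
      have hcont : ContinuousAt ps (c + w * x) := by
        apply ps_cont
        intro n hn
        apply hw
        refine ⟨n, ?_⟩
        show ((n : ℝ) - c) / x = w
        rw [← hn]
        field_simp
        ring
      have hlim : Tendsto (fun N : ℕ => c + (⌊w * N⌋₊ : ℝ) * (x / N) + s * (x / N)) atTop (𝓝 (c + w * x)) := by
        have h1 : Tendsto (fun N : ℕ => (⌊w * N⌋₊ : ℝ) / N) atTop (𝓝 w) :=
          (tendsto_nat_floor_mul_div_atTop hwU.1.le).comp tendsto_natCast_atTop_atTop
        have h2 : Tendsto (fun N : ℕ => x / (N : ℝ)) atTop (𝓝 0) :=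
          tendsto_const_nhds.div_atTop tendsto_natCast_atTop_atTop
        have h3 : (fun N : ℕ => c + (⌊w * N⌋₊ : ℝ) * (x / N) + s * (x / N)) =
            fun N : ℕ => c + (⌊w * N⌋₊ : ℝ) / N * x + s * (x / N) := by
          funext N
          ring
        rw [h3]
        have h4 := ((h1.mul_const x).const_add c).add (h2.const_mul s)
        rwa [mul_zero, add_zero] at h4
      exact hcont.tendsto.comp hlim
  have hdiff : Tendsto (fun N => ∫ w in ((L N : ℝ) / N)..U, gN N w) atTop (𝓝 0) := by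
    have h1 : Tendsto (fun N : ℕ => 1 / 2 * |U - (L N : ℝ) / N|) atTop (𝓝 0) := by
      have h2 : Tendsto (fun N : ℕ => U - (L N : ℝ) / N) atTop (𝓝 (U - U)) := tendsto_const_nhds.sub hL
      rw [sub_self] at h2
      have h3 := (h2.abs).const_mul (1 / 2 : ℝ)
      rwa [abs_zero, mul_zero] at h3
    refine squeeze_zero_norm (fun N => ?_) h1
    exact intervalIntegral.norm_integral_le_of_norm_le_const fun w _ => hgb N w
  have h1 := hdct.sub hdiff
  rw [sub_zero] at h1
  refine h1.congr' ?_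
  filter_upwards [eventually_ge_atTop 1] with N hN
  have h2 := intervalIntegral.integral_add_adjacent_intervals (hgi N 0 ((L N : ℝ) / N)) (hgi N ((L N : ℝ) / N) U)
  have h3 := step_int N hN (fun j => ps (c + (j : ℝ) * (x / N) + s * (x / N))) (L N)
  rw [← h3]
  show (∫ w in (0 : ℝ)..U, gN N w) - ∫ w in ((L N : ℝ) / N)..U, gN N w = ∫ w in (0 : ℝ)..((L N : ℝ) / N), gN N w
  rw [← h2]
  ring

/-- MA -/
theorem t_MA : J_MA := by
  intro q a m x hq ha hm
  have hqr : (0 : ℝ) < q := by exact_mod_cast hq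
  have hmr : (0 : ℝ) < m := by exact_mod_cast hm
  obtain ⟨U, hU⟩ : ∃ U : ℝ, U = 1 / ((m : ℝ) * q) := ⟨_, rfl⟩
  have hU0 : 0 ≤ U := by rw [hU]; positivity
  -- the number of the blocks
  have hLU : ∀ N : ℕ, ((N / m / q : ℕ) : ℝ) / N ≤ U := by
    intro N
    rcases Nat.eq_zero_or_pos N with h0 | h0
    · subst h0
      simpa using hU0
    · have hN0 : (0 : ℝ) < N := by exact_mod_cast h0
      rw [div_le_iff₀ hN0, Nat.div_div_eq_div_mul]
      calc ((N / (m * q) : ℕ) : ℝ) ≤ (N : ℝ) / ((m * q : ℕ) : ℝ) := Nat.cast_div_le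
        _ = U * N := by rw [hU]; push_cast; ring
  have hL : Tendsto (fun N : ℕ => ((N / m / q : ℕ) : ℝ) / N) atTop (𝓝 U) := by
    have h1 : Tendsto (fun N : ℕ => U - 1 / (N : ℝ)) atTop (𝓝 U) := by
      have := (tendsto_const_nhds (x := U)).sub (tendsto_const_nhds.div_atTop tendsto_natCast_atTop_atTop :
        Tendsto (fun N : ℕ => (1 : ℝ) / (N : ℝ)) atTop (𝓝 0))
      rwa [sub_zero] at this
    refine tendsto_of_tendsto_of_tendsto_of_le_of_le' h1 tendsto_const_nhds ?_ (Filter.Eventually.of_forall hLU)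
    filter_upwards [eventually_ge_atTop 1] with N hN
    have hN0 : (0 : ℝ) < N := by exact_mod_cast hN
    rw [Nat.div_div_eq_div_mul]
    have h2 : N < m * q * (N / (m * q) + 1) := Nat.lt_mul_div_succ N (Nat.mul_pos hm hq)
    have h3 : (N : ℝ) < m * q * (((N / (m * q) : ℕ) : ℝ) + 1) := by exact_mod_cast h2
    rw [sub_le_iff_le_add, ← add_div, hU, div_le_div_iff₀ (by positivity) hN0]
    rw [one_mul]
    linarith
  -- the sum over the residues
  have hsum : Tendsto (fun N : ℕ => ∑ r ∈ Finset.range q,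
      (∑ j ∈ Finset.range (N / m / q), ps (((r : ℝ) + 1) * ((a : ℝ) / q) + j * (x / N) + (((r : ℝ) + 1) / q) * (x / N))) / N)
      atTop (𝓝 (∑ r ∈ Finset.range q, ∫ w in (0 : ℝ)..U, ps (((r : ℝ) + 1) * ((a : ℝ) / q) + w * x))) :=
    tendsto_finsetSum _ fun r _ => riem _ _ x U hU0 (fun N => N / m / q) hL
  have hrest : Tendsto (fun N : ℕ => (∑ y ∈ Finset.range (N / m % q),
      ps ((((N / m / q * q + y : ℕ) : ℝ) + 1) * ((a : ℝ) / q + x / (q * N)))) / N) atTop (𝓝 0) := by
    have h1 : Tendsto (fun N : ℕ => (q : ℝ) / (N : ℝ)) atTop (𝓝 0) :=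
      tendsto_const_nhds.div_atTop tendsto_natCast_atTop_atTop
    refine squeeze_zero_norm (fun N => ?_) h1
    rw [norm_div, Real.norm_natCast]
    refine div_le_div_of_nonneg_right ?_ (Nat.cast_nonneg N)
    refine (norm_sum_le _ _).trans ?_
    refine (Finset.sum_le_sum fun y _ => (ps_abs _ : ‖ps _‖ ≤ 1 / 2)).trans ?_
    rw [Finset.sum_const, Finset.card_range, nsmul_eq_mul]
    have h4 : ((N / m % q : ℕ) : ℝ) ≤ q := by exact_mod_cast (Nat.mod_lt _ hq).le
    have h5 : (0 : ℝ) ≤ ((N / m % q : ℕ) : ℝ) := Nat.cast_nonneg _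
    linarith
  have hval : ∑ r ∈ Finset.range q, ∫ w in (0 : ℝ)..U, ps (((r : ℝ) + 1) * ((a : ℝ) / q) + w * x) =
      1 / q * pr (1 / (m : ℝ)) x := by
    rw [← intervalIntegral.integral_finsetSum]
    · have h1 : ∀ w : ℝ, ∑ r ∈ Finset.range q, ps (((r : ℝ) + 1) * ((a : ℝ) / q) + w * x) = ps ((q : ℝ) * w * x) := by
        intro w
        rw [herm q hq a ha (w * x), mul_assoc]
      simp only [h1]
      rw [intervalIntegral.integral_comp_mul_left (fun v => ps (v * x)) hqr.ne', mul_zero]
      have h2 : (q : ℝ) * U = 1 / m := by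
        rw [hU]
        field_simp
      rw [h2, smul_eq_mul, pr, one_div (q : ℝ)]
    · intro r _
      refine IntervalIntegrable.mono_fun (f := fun _ => (1 / 2 : ℝ)) intervalIntegrable_const
        (ps_meas.comp ((measurable_id.mul_const x).const_add _)).aestronglyMeasurable
        (Filter.Eventually.of_forall fun w => ?_)
      refine (ps_abs _ : ‖ps _‖ ≤ 1 / 2).trans (le_of_eq ?_)
      norm_num
  have h1 := hsum.add hrest
  rw [add_zero, hval] at h1
  refine h1.congr' ?_
  filter_upwards [eventually_ge_atTop 1] with N hN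
  have hN0 : (0 : ℝ) < N := by exact_mod_cast hN
  have hD : N / m = (N / m / q) * q + N / m % q := by
    rw [mul_comm]; exact (Nat.div_add_mod (N / m) q).symm
  have h2 : S (N / m) ((a : ℝ) / q + x / (q * N)) = S ((N / m / q) * q + N / m % q) ((a : ℝ) / q + x / (q * N)) := by
    rw [← hD]
  rw [h2, S_dec, add_div, ← Finset.sum_div, Finset.sum_comm]
  congr 2
  refine Finset.sum_congr rfl fun j _ => Finset.sum_congr rfl fun r _ => ?_
  have h3 : ((j : ℝ) * q + r + 1) * ((a : ℝ) / q + x / (q * N)) =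
      (((r : ℝ) + 1) * ((a : ℝ) / q) + j * (x / N) + (((r : ℝ) + 1) / q) * (x / N)) + ((j * a : ℤ) : ℝ) := by
    push_cast
    field_simp
    ring
  rw [h3, ps_add_int]

end Pool.Agent.Q65.FA
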